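import Mathlib

/-!
# MP_87a692_al : stably bounded structured quaternion systems have definite root subspaces

If a system `∑ A_k x^{(k)} = 0` obeying (B), of order `ℓ ≥ 2`, is stably bounded, then all root
subspaces of its companion matrix `C` are `(G, φ)`-definite. If a root subspace is not definite we
find an eigenvector `(v, vα, vα², …)` of `C` that is isotropic; for small `s > 0` an explicit small
perturbation of `A₀` and `A₁` has the unbounded solution `v exp (t (α + s))`.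
-/

set_option autoImplicit false

namespace Pool.Agent.Results.MP_87a692_al.StableDefinite

open Quaternion Matrix

/-! ### Definitions -/

/-- A nonstandard involution of the real quaternions. -/
structure IsNonstandardInvolution (φ : ℍ[ℝ] →ₗ[ℝ] ℍ[ℝ]) : Prop where
  anti : ∀ x y, φ (x * y) = φ y * φ x
  invol : ∀ x, φ (φ x) = x
  ne_star : ∃ x, φ x ≠ star x

/-- `X_φ`: the transpose of `X` with `φ` applied entrywise. -/
noncomputable def phiT (φ : ℍ[ℝ] →ₗ[ℝ] ℍ[ℝ]) {m k : Type} (X : Matrix m k ℍ[ℝ]) : Matrix k m ℍ[ℝ] :=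
  fun i j => φ (X j i)

/-- Hypothesis (B) on the coefficients `A₀, …, A_ℓ`. -/
def HypB (φ : ℍ[ℝ] →ₗ[ℝ] ℍ[ℝ]) (ℓ : ℕ) {n : ℕ} (A : ℕ → Matrix (Fin n) (Fin n) ℍ[ℝ]) : Prop :=
  IsUnit (A ℓ) ∧ (∀ k ≤ ℓ, Even k → phiT φ (A k) = A k) ∧
    (∀ k ≤ ℓ, Odd k → phiT φ (A k) = -A k)

/-- `x` is a `C^ℓ` solution of `∑_{k ≤ ℓ} A_k x^{(k)} = 0` on `ℝ`. -/
def IsSolution (ℓ : ℕ) {n : ℕ} (A : ℕ → Matrix (Fin n) (Fin n) ℍ[ℝ])
    (x : ℝ → Fin n → ℍ[ℝ]) : Prop :=
  ContDiff ℝ ℓ x ∧ ∀ t, ∑ k ∈ Finset.range (ℓ + 1), A k *ᵥ iteratedDeriv k x t = 0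

/-- All solutions are bounded on `ℝ`. -/
def BoundedSystem (ℓ : ℕ) {n : ℕ} (A : ℕ → Matrix (Fin n) (Fin n) ℍ[ℝ]) : Prop :=
  ∀ x, IsSolution ℓ A x → ∃ M, ∀ t, ‖x t‖ ≤ M

/-- All nearby systems obeying (B) are bounded. -/
def StablyBounded (φ : ℍ[ℝ] →ₗ[ℝ] ℍ[ℝ]) (ℓ : ℕ) {n : ℕ}
    (A : ℕ → Matrix (Fin n) (Fin n) ℍ[ℝ]) : Prop :=
  ∃ ε > 0, ∀ A' : ℕ → Matrix (Fin n) (Fin n) ℍ[ℝ], HypB φ ℓ A' →
    (∀ k ≤ ℓ, ∀ i j, ‖A' k i j - A k i j‖ < ε) → BoundedSystem ℓ A'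

/-- The block companion matrix `C`. -/
noncomputable def comp (ℓ : ℕ) {n : ℕ} (A : ℕ → Matrix (Fin n) (Fin n) ℍ[ℝ]) :
    Matrix (Fin ℓ × Fin n) (Fin ℓ × Fin n) ℍ[ℝ] :=
  fun p q => if (p.1 : ℕ) + 1 < ℓ then (if (q.1 : ℕ) = p.1 + 1 ∧ p.2 = q.2 then 1 else 0)
    else -(Ring.inverse (A ℓ) * A q.1) p.2 q.2

/-- The matrix `G`; blocks are numbered from `0`, so that the block `(a, b)` is
`(-1)^a A_{a+b+1}` if `a + b + 1 ≤ ℓ`. -/
noncomputable def Gmat (ℓ : ℕ) {n : ℕ} (A : ℕ → Matrix (Fin n) (Fin n) ℍ[ℝ]) :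
    Matrix (Fin ℓ × Fin n) (Fin ℓ × Fin n) ℍ[ℝ] :=
  fun p q => if (p.1 : ℕ) + q.1 + 1 ≤ ℓ then (-1) ^ (p.1 : ℕ) * A (p.1 + q.1 + 1) p.2 q.2 else 0

/-- `α` is an eigenvalue of `C`. -/
def IsEigenvalue {ι : Type} [Fintype ι] (C : Matrix ι ι ℍ[ℝ]) (α : ℍ[ℝ]) : Prop :=
  ∃ y : ι → ℍ[ℝ], y ≠ 0 ∧ C *ᵥ y = fun p => y p * α

open Classical in
/-- `p(C)` for `p(t) = t - α` if `α` is real and `p(t) = t² - 2 Re(α) t + |α|²` otherwise. -/
noncomputable def pC {ι : Type} [Fintype ι] [DecidableEq ι] (C : Matrix ι ι ℍ[ℝ]) (α : ℍ[ℝ]) :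
    Matrix ι ι ℍ[ℝ] :=
  if α.im = 0 then C - α.re • 1 else C ^ 2 - (2 * α.re) • C + (‖α‖ ^ 2) • 1

/-- The root subspace of `C` for the eigenvalue `α` is `(G, φ)`-definite. -/
def RootDefinite (φ : ℍ[ℝ] →ₗ[ℝ] ℍ[ℝ]) (ℓ : ℕ) {n : ℕ}
    (A : ℕ → Matrix (Fin n) (Fin n) ℍ[ℝ]) (α : ℍ[ℝ]) : Prop :=
  ∀ x : Fin ℓ × Fin n → ℍ[ℝ], (pC (comp ℓ A) α ^ (ℓ * n)) *ᵥ x = 0 →
    ∑ p, φ (x p) * (Gmat ℓ A *ᵥ x) p = 0 → x = 0

/-! ### The shape of a nonstandard involution -/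

/-- the quaternion units -/
noncomputable def qi : ℍ[ℝ] := ⟨0, 1, 0, 0⟩
noncomputable def qj : ℍ[ℝ] := ⟨0, 0, 1, 0⟩
noncomputable def qk : ℍ[ℝ] := ⟨0, 0, 0, 1⟩

@[simp] theorem qi_re : qi.re = 0 := rfl
@[simp] theorem qi_imI : qi.imI = 1 := rfl
@[simp] theorem qi_imJ : qi.imJ = 0 := rfl
@[simp] theorem qi_imK : qi.imK = 0 := rfl
@[simp] theorem qj_re : qj.re = 0 := rfl
@[simp] theorem qj_imI : qj.imI = 0 := rfl
@[simp] theorem qj_imJ : qj.imJ = 1 := rfl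
@[simp] theorem qj_imK : qj.imK = 0 := rfl
@[simp] theorem qk_re : qk.re = 0 := rfl
@[simp] theorem qk_imI : qk.imI = 0 := rfl
@[simp] theorem qk_imJ : qk.imJ = 0 := rfl
@[simp] theorem qk_imK : qk.imK = 1 := rfl

theorem ii : qi * qi = -1 := by ext <;> simp
theorem jj : qj * qj = -1 := by ext <;> simp
theorem kk : qk * qk = -1 := by ext <;> simp
theorem ij : qi * qj = qk := by ext <;> simp
theorem ji : qj * qi = -qk := by ext <;> simp
theorem jk : qj * qk = qi := by ext <;> simp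
theorem kj : qk * qj = -qi := by ext <;> simp
theorem ki : qk * qi = qj := by ext <;> simp
theorem ik : qi * qk = -qj := by ext <;> simp

theorem eq_comb (x : ℍ[ℝ]) : x = x.re • 1 + x.imI • qi + x.imJ • qj + x.imK • qk := by
  ext <;> simp

/-- An automorphism of the real quaternions is inner. -/
theorem inner (σ : ℍ[ℝ] →ₗ[ℝ] ℍ[ℝ]) (h : ∀ x y, σ (x * y) = σ x * σ y) (h1 : σ 1 = 1) :
    ∃ η : ℍ[ℝ], η ≠ 0 ∧ ∀ x, σ x * η = η * x := by
  let E : ℍ[ℝ] → ℍ[ℝ] := fun a => a - σ qi * a * qi - σ qj * a * qj - σ qk * a * qk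
  have s_ii : σ qi * σ qi = -1 := by rw [← h, ii, map_neg, h1]
  have s_jj : σ qj * σ qj = -1 := by rw [← h, jj, map_neg, h1]
  have s_kk : σ qk * σ qk = -1 := by rw [← h, kk, map_neg, h1]
  have s_ij : σ qi * σ qj = σ qk := by rw [← h, ij]
  have s_ji : σ qj * σ qi = -σ qk := by rw [← h, ji, map_neg]
  have s_jk : σ qj * σ qk = σ qi := by rw [← h, jk]
  have s_kj : σ qk * σ qj = -σ qi := by rw [← h, kj, map_neg]
  have s_ki : σ qk * σ qi = σ qj := by rw [← h, ki]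
  have s_ik : σ qi * σ qk = -σ qj := by rw [← h, ik, map_neg]
  have hi : ∀ a, σ qi * E a = E a * qi := by
    intro a
    simp only [E]
    have e1 : σ qi * (a - σ qi * a * qi - σ qj * a * qj - σ qk * a * qk) =
        σ qi * a - (σ qi * σ qi) * a * qi - (σ qi * σ qj) * a * qj - (σ qi * σ qk) * a * qk := by
      noncomm_ring
    have e2 : (a - σ qi * a * qi - σ qj * a * qj - σ qk * a * qk) * qi =
        a * qi - σ qi * a * (qi * qi) - σ qj * a * (qj * qi) - σ qk * a * (qk * qi) := by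
      noncomm_ring
    rw [e1, e2, s_ii, s_ij, s_ik, ii, ji, ki]
    noncomm_ring
  have hj : ∀ a, σ qj * E a = E a * qj := by
    intro a
    simp only [E]
    have e1 : σ qj * (a - σ qi * a * qi - σ qj * a * qj - σ qk * a * qk) =
        σ qj * a - (σ qj * σ qi) * a * qi - (σ qj * σ qj) * a * qj - (σ qj * σ qk) * a * qk := by
      noncomm_ring
    have e2 : (a - σ qi * a * qi - σ qj * a * qj - σ qk * a * qk) * qj =
        a * qj - σ qi * a * (qi * qj) - σ qj * a * (qj * qj) - σ qk * a * (qk * qj) := by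
      noncomm_ring
    rw [e1, e2, s_ji, s_jj, s_jk, ij, jj, kj]
    noncomm_ring
  have hk : ∀ a, σ qk * E a = E a * qk := by
    intro a
    rw [← s_ij, mul_assoc, hj, ← mul_assoc, hi, mul_assoc, ij]
  have hall : ∀ a x, σ x * E a = E a * x := by
    intro a x
    conv_lhs => rw [eq_comb x]
    conv_rhs => rw [eq_comb x]
    simp only [map_add, map_smul, h1, add_mul, mul_add, smul_mul_assoc, mul_smul_comm, hi, hj, hk,
      one_mul, mul_one]
  have hsum : E 1 - E qi * qi - E qj * qj - E qk * qk = (4 : ℝ) • (1 : ℍ[ℝ]) := by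
    simp only [E]
    generalize σ qi = a
    generalize σ qj = b
    generalize σ qk = c
    ext <;> simp <;> ring
  by_contra hcon
  push Not at hcon
  have hE : ∀ a, E a = 0 := by
    intro a
    by_contra hne
    obtain ⟨x, hx⟩ := hcon (E a) hne
    exact hx (hall a x)
  rw [hE, hE, hE, hE] at hsum
  have := congrArg QuaternionAlgebra.re hsum
  simp at this

theorem exists_eta {φ : ℍ[ℝ] →ₗ[ℝ] ℍ[ℝ]} (hφ : IsNonstandardInvolution φ) :
    ∃ η : ℍ[ℝ], η * η = -1 ∧ star η = -η ∧ ∀ x, φ x = -(η * star x * η) := by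
  have h1 : φ 1 = 1 := by
    have e1 : φ (1 * φ 1) = φ (φ 1) * φ 1 := hφ.anti _ _
    rw [one_mul, hφ.invol, one_mul] at e1
    exact e1.symm
  let st : ℍ[ℝ] →ₗ[ℝ] ℍ[ℝ] :=
    { toFun := star
      map_add' := star_add
      map_smul' := fun r x => Quaternion.star_smul r x }
  obtain ⟨η, hη, hη2⟩ := inner (φ ∘ₗ st)
    (fun x y => by
      show φ (star (x * y)) = φ (star x) * φ (star y)
      rw [star_mul, hφ.anti]) (by
      show φ (star 1) = 1
      rw [star_one, h1])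
  have h2 : ∀ x, φ x * η = η * star x := by
    intro x
    have := hη2 (star x)
    rw [← this]
    show φ x * η = φ (star (star x)) * η
    rw [star_star]
  -- `φ η = star η`
  have hN : star η * η = η * star η := by
    rw [Quaternion.self_mul_star, Quaternion.star_mul_self]
  have h3 : φ η = star η := by
    have := h2 η
    rw [← hN] at this
    exact mul_right_cancel₀ hη this
  have h4 : ∀ y, φ y * star η = star η * star y := by
    intro y
    have e1 := congrArg φ (h2 (star y))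
    rw [hφ.anti, hφ.anti, hφ.invol, h3, star_star] at e1
    exact e1.symm
  have h5 : ∀ w, star η * w * η = η * w * star η := by
    intro w
    have e1 := congrArg (fun z => z * η) (h4 (star w))
    have e2 := congrArg (fun z => z * star η) (h2 (star w))
    simp only [star_star] at e1 e2
    rw [← e1, ← e2, mul_assoc, mul_assoc, hN]
  have e1 := h5 qi
  have e2 := h5 qj
  have c1 := congrArg QuaternionAlgebra.imJ e1
  have c2 := congrArg QuaternionAlgebra.imK e1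
  have c3 := congrArg QuaternionAlgebra.imK e2
  have c4 := congrArg QuaternionAlgebra.imI e2
  simp at c1 c2 c3 c4
  have k1 : η.re * η.imK = 0 := by linear_combination (-1 / 4) * c1
  have k2 : η.re * η.imJ = 0 := by linear_combination (1 / 4) * c2
  have k3 : η.re * η.imI = 0 := by linear_combination (-1 / 4) * c3
  by_cases ha : η.re = 0
  · have hst : star η = -η := by
      ext <;> simp [ha]
    have hne : ‖η‖ ≠ 0 := norm_ne_zero_iff.mpr hη
    have hηη : η * η = -((‖η‖ ^ 2 : ℝ) : ℍ[ℝ]) := by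
      have e1 : η * star η = ((‖η‖ ^ 2 : ℝ) : ℍ[ℝ]) := by
        rw [Quaternion.self_mul_star, Quaternion.normSq_eq_norm_mul_self, sq]
      rw [← e1, hst, mul_neg, neg_neg]
    refine ⟨(‖η‖⁻¹ : ℝ) • η, ?_, ?_, ?_⟩
    · rw [smul_mul_smul_comm, hηη, ← mul_inv]
      rw [smul_neg, ← Quaternion.coe_smul, smul_eq_mul]
      have : (‖η‖ * ‖η‖)⁻¹ * ‖η‖ ^ 2 = 1 := by field_simp
      rw [this]
      simp
    · rw [Quaternion.star_smul, hst, smul_neg]
    · intro x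
      have e1 : η * star x * η = φ x * (η * η) := by rw [← h2, mul_assoc]
      rw [smul_mul_assoc, smul_mul_smul_comm, e1, hηη, mul_neg, smul_neg, neg_neg]
      rw [← mul_smul_comm, ← Quaternion.coe_smul, smul_eq_mul]
      have : ‖η‖⁻¹ * ‖η‖⁻¹ * ‖η‖ ^ 2 = 1 := by field_simp
      rw [this]
      simp
  · exfalso
    have m1 : η.imK = 0 := (mul_eq_zero.mp k1).resolve_left ha
    have m2 : η.imJ = 0 := (mul_eq_zero.mp k2).resolve_left ha
    have m3 : η.imI = 0 := (mul_eq_zero.mp k3).resolve_left ha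
    have hη' : η = (η.re : ℍ[ℝ]) := by
      ext <;> simp [m1, m2, m3]
    obtain ⟨x, hx⟩ := hφ.ne_star
    apply hx
    have e1 := h2 x
    rw [hη', Quaternion.coe_commutes] at e1
    have hne' : (η.re : ℍ[ℝ]) ≠ 0 := by
      rw [← hη']
      exact hη
    exact mul_right_cancel₀ hne' e1

/-! ### Hermitian forms -/

section Forms

variable {n : ℕ}

/-- the form `∑_{a+b+1 ≤ ℓ} (-1)^a X_a* B_{a+b+1} Y_b` -/
noncomputable def form (ℓ : ℕ) (B : ℕ → Matrix (Fin n) (Fin n) ℍ[ℝ]) (X Y : ℕ → Fin n → ℍ[ℝ]) :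
    ℍ[ℝ] :=
  ∑ k ∈ Finset.range ℓ, ∑ x ∈ Finset.HasAntidiagonal.antidiagonal k,
    ((-1 : ℝ) ^ x.1) • (star (X x.1) ⬝ᵥ (B (k + 1) *ᵥ Y x.2))

theorem star_dot (M : Matrix (Fin n) (Fin n) ℍ[ℝ]) (u v : Fin n → ℍ[ℝ]) :
    star (star u ⬝ᵥ (M *ᵥ v)) = star v ⬝ᵥ (Mᴴ *ᵥ u) := by
  rw [← star_dotProduct_star, star_star, star_mulVec, dotProduct_mulVec]

theorem dot_conj (M : Matrix (Fin n) (Fin n) ℍ[ℝ]) (u v : Fin n → ℍ[ℝ]) :
    star (M *ᵥ u) ⬝ᵥ v = star u ⬝ᵥ (Mᴴ *ᵥ v) := by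
  rw [star_mulVec, dotProduct_mulVec]

theorem form_star {ℓ : ℕ} {B : ℕ → Matrix (Fin n) (Fin n) ℍ[ℝ]}
    (hB : ∀ k ≤ ℓ, (B k)ᴴ = ((-1 : ℝ) ^ (k + 1)) • B k) (X Y : ℕ → Fin n → ℍ[ℝ]) :
    star (form ℓ B X Y) = form ℓ B Y X := by
  unfold form
  rw [star_sum]
  refine Finset.sum_congr rfl fun k hk => ?_
  rw [Finset.mem_range] at hk
  rw [star_sum, ← Finset.Nat.sum_antidiagonal_swap]
  refine Finset.sum_congr rfl fun x hx => ?_
  rw [Finset.HasAntidiagonal.mem_antidiagonal] at hx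
  show star (((-1 : ℝ) ^ x.2) • (star (X x.2) ⬝ᵥ (B (k + 1) *ᵥ Y x.1))) = _
  rw [Quaternion.star_smul, star_dot, hB (k + 1) hk, smul_mulVec, dotProduct_smul, smul_smul]
  congr 1
  rw [← hx, ← pow_add]
  have : x.2 + (x.1 + x.2 + 1 + 1) = x.1 + 2 * (x.2 + 1) := by ring
  rw [this, pow_add, pow_mul]
  simp

theorem form_skew {ℓ : ℕ} {B : ℕ → Matrix (Fin n) (Fin n) ℍ[ℝ]}
    (hB : ∀ k ≤ ℓ, (B k)ᴴ = ((-1 : ℝ) ^ (k + 1)) • B k) (X Y : ℕ → Fin n → ℍ[ℝ])
    (hX : ∑ k ∈ Finset.range (ℓ + 1), B k *ᵥ X k = 0)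
    (hY : ∑ k ∈ Finset.range (ℓ + 1), B k *ᵥ Y k = 0) :
    form ℓ B (fun a => X (a + 1)) Y + form ℓ B X (fun a => Y (a + 1)) = 0 := by
  let T : ℕ × ℕ → ℍ[ℝ] := fun x => ((-1 : ℝ) ^ x.1) • (star (X x.1) ⬝ᵥ (B (x.1 + x.2) *ᵥ Y x.2))
  have hk : ∀ k, (∑ x ∈ Finset.HasAntidiagonal.antidiagonal k,
      ((-1 : ℝ) ^ x.1) • (star (X (x.1 + 1)) ⬝ᵥ (B (k + 1) *ᵥ Y x.2))) +
      (∑ x ∈ Finset.HasAntidiagonal.antidiagonal k,
      ((-1 : ℝ) ^ x.1) • (star (X x.1) ⬝ᵥ (B (k + 1) *ᵥ Y (x.2 + 1)))) =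
      T (0, k + 1) - T (k + 1, 0) := by
    intro k
    have e1 := Finset.Nat.sum_antidiagonal_succ (n := k) (f := T)
    have e2 := Finset.Nat.sum_antidiagonal_succ' (n := k) (f := T)
    have e3 : ∑ x ∈ Finset.HasAntidiagonal.antidiagonal k,
        ((-1 : ℝ) ^ x.1) • (star (X (x.1 + 1)) ⬝ᵥ (B (k + 1) *ᵥ Y x.2)) =
        -∑ x ∈ Finset.HasAntidiagonal.antidiagonal k, T (x.1 + 1, x.2) := by
      rw [← Finset.sum_neg_distrib]
      refine Finset.sum_congr rfl fun x hx => ?_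
      rw [Finset.HasAntidiagonal.mem_antidiagonal] at hx
      show _ = -(((-1 : ℝ) ^ (x.1 + 1)) • (star (X (x.1 + 1)) ⬝ᵥ (B (x.1 + 1 + x.2) *ᵥ Y x.2)))
      rw [show x.1 + 1 + x.2 = k + 1 by omega, pow_succ]
      simp
    have e4 : ∑ x ∈ Finset.HasAntidiagonal.antidiagonal k,
        ((-1 : ℝ) ^ x.1) • (star (X x.1) ⬝ᵥ (B (k + 1) *ᵥ Y (x.2 + 1))) =
        ∑ x ∈ Finset.HasAntidiagonal.antidiagonal k, T (x.1, x.2 + 1) := by
      refine Finset.sum_congr rfl fun x hx => ?_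
      rw [Finset.HasAntidiagonal.mem_antidiagonal] at hx
      show _ = ((-1 : ℝ) ^ x.1) • (star (X x.1) ⬝ᵥ (B (x.1 + (x.2 + 1)) *ᵥ Y (x.2 + 1)))
      rw [show x.1 + (x.2 + 1) = k + 1 by omega]
    rw [e3, e4]
    have e5 : T (0, k + 1) + ∑ x ∈ Finset.HasAntidiagonal.antidiagonal k, T (x.1 + 1, x.2) =
        ∑ x ∈ Finset.HasAntidiagonal.antidiagonal k, T (x.1, x.2 + 1) + T (k + 1, 0) := by
      rw [← e1, e2, add_comm]
    have e6 : ∑ x ∈ Finset.HasAntidiagonal.antidiagonal k, T (x.1, x.2 + 1) =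
        T (0, k + 1) + ∑ x ∈ Finset.HasAntidiagonal.antidiagonal k, T (x.1 + 1, x.2) - T (k + 1, 0) := by
      rw [e5, add_sub_cancel_right]
    rw [e6]
    abel
  unfold form
  rw [← Finset.sum_add_distrib, Finset.sum_congr rfl fun k _ => hk k, Finset.sum_sub_distrib]
  have s1 : ∑ k ∈ Finset.range ℓ, T (0, k + 1) = -T (0, 0) := by
    have e1 : ∑ k ∈ Finset.range (ℓ + 1), T (0, k) = 0 := by
      have : ∀ k, T (0, k) = star (X 0) ⬝ᵥ (B k *ᵥ Y k) := by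
        intro k
        show ((-1 : ℝ) ^ 0) • (star (X 0) ⬝ᵥ (B (0 + k) *ᵥ Y k)) = _
        rw [pow_zero, one_smul, zero_add]
      rw [Finset.sum_congr rfl fun k _ => this k, ← dotProduct_sum, hY, dotProduct_zero]
    rw [Finset.sum_range_succ'] at e1
    exact eq_neg_of_add_eq_zero_left e1
  have s2 : ∑ k ∈ Finset.range ℓ, T (k + 1, 0) = -T (0, 0) := by
    have e1 : ∑ k ∈ Finset.range (ℓ + 1), T (k, 0) = 0 := by
      have : ∀ k ∈ Finset.range (ℓ + 1), T (k, 0) = -(star (B k *ᵥ X k) ⬝ᵥ Y 0) := by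
        intro k hk'
        rw [Finset.mem_range] at hk'
        rw [dot_conj, hB k (by omega), smul_mulVec, dotProduct_smul]
        show ((-1 : ℝ) ^ k) • (star (X k) ⬝ᵥ (B (k + 0) *ᵥ Y 0)) = _
        rw [add_zero, pow_succ]
        simp
      rw [Finset.sum_congr rfl this, Finset.sum_neg_distrib, ← sum_dotProduct, ← star_sum, hX,
        star_zero, zero_dotProduct, neg_zero]
    rw [Finset.sum_range_succ'] at e1
    exact eq_neg_of_add_eq_zero_left e1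
  rw [s1, s2, sub_self]

theorem form_add_right (ℓ : ℕ) (B : ℕ → Matrix (Fin n) (Fin n) ℍ[ℝ]) (X Y Z : ℕ → Fin n → ℍ[ℝ]) :
    form ℓ B X (Y + Z) = form ℓ B X Y + form ℓ B X Z := by
  unfold form
  simp only [Pi.add_apply, mulVec_add, dotProduct_add, smul_add, Finset.sum_add_distrib]

/-- right multiplication by a quaternion -/
noncomputable def rmul (X : ℕ → Fin n → ℍ[ℝ]) (q : ℍ[ℝ]) : ℕ → Fin n → ℍ[ℝ] := fun a i => X a i * q

theorem mulVec_rmul (M : Matrix (Fin n) (Fin n) ℍ[ℝ]) (v : Fin n → ℍ[ℝ]) (q : ℍ[ℝ]) :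
    (M *ᵥ fun i => v i * q) = fun i => (M *ᵥ v) i * q := by
  funext i
  simp only [mulVec, dotProduct, Finset.sum_mul, mul_assoc]

theorem dot_rmul (u v : Fin n → ℍ[ℝ]) (q : ℍ[ℝ]) :
    (u ⬝ᵥ fun i => v i * q) = (u ⬝ᵥ v) * q := by
  simp only [dotProduct, Finset.sum_mul, mul_assoc]

theorem form_rmul (ℓ : ℕ) (B : ℕ → Matrix (Fin n) (Fin n) ℍ[ℝ]) (X Y : ℕ → Fin n → ℍ[ℝ])
    (q : ℍ[ℝ]) : form ℓ B X (rmul Y q) = form ℓ B X Y * q := by
  unfold form rmul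
  simp only [mulVec_rmul, dot_rmul, Finset.sum_mul, smul_mul_assoc]

theorem form_congr {ℓ : ℕ} (B : ℕ → Matrix (Fin n) (Fin n) ℍ[ℝ]) {X X' Y Y' : ℕ → Fin n → ℍ[ℝ]}
    (hX : ∀ a < ℓ, X a = X' a) (hY : ∀ a < ℓ, Y a = Y' a) : form ℓ B X Y = form ℓ B X' Y' := by
  unfold form
  refine Finset.sum_congr rfl fun k hk => Finset.sum_congr rfl fun x hx => ?_
  rw [Finset.mem_range] at hk
  rw [Finset.HasAntidiagonal.mem_antidiagonal] at hx
  rw [hX _ (by omega), hY _ (by omega)]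

theorem form_eq (ℓ : ℕ) (B : ℕ → Matrix (Fin n) (Fin n) ℍ[ℝ]) (X Y : ℕ → Fin n → ℍ[ℝ]) :
    form ℓ B X Y = ∑ a : Fin ℓ, ∑ b : Fin ℓ, if (a : ℕ) + b + 1 ≤ ℓ then
      ((-1 : ℝ) ^ (a : ℕ)) • (star (X a) ⬝ᵥ (B (a + b + 1) *ᵥ Y b)) else 0 := by
  let f : ℕ → ℕ → ℍ[ℝ] := fun a b =>
    ((-1 : ℝ) ^ a) • (star (X a) ⬝ᵥ (B (a + b + 1) *ᵥ Y b))
  have e1 : form ℓ B X Y = ∑ m ∈ Finset.range ℓ, ∑ k ∈ Finset.range (m + 1), f k (m - k) := by
    unfold form
    refine Finset.sum_congr rfl fun m hm => ?_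
    rw [← Finset.Nat.sum_antidiagonal_eq_sum_range_succ f]
    refine Finset.sum_congr rfl fun x hx => ?_
    rw [Finset.HasAntidiagonal.mem_antidiagonal] at hx
    show _ = ((-1 : ℝ) ^ x.1) • (star (X x.1) ⬝ᵥ (B (x.1 + x.2 + 1) *ᵥ Y x.2))
    rw [hx]
  rw [e1, Finset.sum_range_diag_flip, Finset.sum_range]
  refine Finset.sum_congr rfl fun a _ => ?_
  have e2 : ∑ b : Fin ℓ, (if (a : ℕ) + b + 1 ≤ ℓ then
      ((-1 : ℝ) ^ (a : ℕ)) • (star (X a) ⬝ᵥ (B (a + b + 1) *ᵥ Y b)) else 0) =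
      ∑ b ∈ Finset.range ℓ, (if (a : ℕ) + b + 1 ≤ ℓ then f a b else 0) := by
    rw [Finset.sum_range]
  rw [e2, ← Finset.sum_filter]
  refine Finset.sum_congr ?_ fun _ _ => rfl
  ext b
  simp only [Finset.mem_range, Finset.mem_filter]
  have := a.2
  omega

end Forms

/-! ### Companion matrices -/

section Companion

variable {n : ℕ} (ℓ : ℕ) (A : ℕ → Matrix (Fin n) (Fin n) ℍ[ℝ])

/-- the blocks of a vector, extended by one block -/
noncomputable def blocks (x : Fin ℓ × Fin n → ℍ[ℝ]) : ℕ → Fin n → ℍ[ℝ] := fun a i =>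
  if h : a < ℓ then x (⟨a, h⟩, i)
  else -((Ring.inverse (A ℓ)) *ᵥ ∑ b : Fin ℓ, A b *ᵥ fun j => x (b, j)) i

variable {ℓ A}

theorem blocks_lt (x : Fin ℓ × Fin n → ℍ[ℝ]) (a : ℕ) (h : a < ℓ) (i : Fin n) :
    blocks ℓ A x a i = x (⟨a, h⟩, i) := by
  rw [blocks, dif_pos h]

theorem blocks_fin (x : Fin ℓ × Fin n → ℍ[ℝ]) (a : Fin ℓ) :
    blocks ℓ A x a = fun i => x (a, i) := by
  funext i
  rw [blocks_lt x a a.2 i]

theorem blocks_last (x : Fin ℓ × Fin n → ℍ[ℝ]) :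
    blocks ℓ A x ℓ = -((Ring.inverse (A ℓ)) *ᵥ ∑ b : Fin ℓ, A b *ᵥ fun j => x (b, j)) := by
  funext i
  rw [blocks, dif_neg (lt_irrefl ℓ)]
  rfl

theorem blocks_sum (hA : IsUnit (A ℓ)) (x : Fin ℓ × Fin n → ℍ[ℝ]) :
    ∑ k ∈ Finset.range (ℓ + 1), A k *ᵥ blocks ℓ A x k = 0 := by
  rw [Finset.sum_range_succ, Finset.sum_range, blocks_last, mulVec_neg, mulVec_mulVec,
    Ring.mul_inverse_cancel _ hA, one_mulVec]
  simp only [blocks_fin]
  exact add_neg_cancel _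

theorem comp_blocks (x : Fin ℓ × Fin n → ℍ[ℝ]) (a : ℕ) (h : a < ℓ) :
    blocks ℓ A (comp ℓ A *ᵥ x) a = blocks ℓ A x (a + 1) := by
  funext i
  rw [blocks_lt _ a h]
  by_cases h1 : a + 1 < ℓ
  · rw [blocks_lt _ (a + 1) h1]
    show ∑ q, comp ℓ A (⟨a, h⟩, i) q * x q = _
    rw [Finset.sum_eq_single (⟨a + 1, h1⟩, i)]
    · simp [comp, h1]
    · intro q _ hq
      have : ¬ ((q.1 : ℕ) = a + 1 ∧ i = q.2) := by
        rintro ⟨e1, e2⟩
        exact hq (Prod.ext (Fin.ext e1) e2.symm)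
      simp [comp, h1, this]
    · intro h'
      exact absurd (Finset.mem_univ _) h'
  · obtain rfl : a + 1 = ℓ := by omega
    rw [blocks_last]
    show ∑ q, comp (a + 1) A (⟨a, h⟩, i) q * x q = _
    rw [Fintype.sum_prod_type]
    have e1 : ∀ (b : Fin (a + 1)) (j : Fin n), comp (a + 1) A (⟨a, h⟩, i) (b, j) * x (b, j) =
        -((Ring.inverse (A (a + 1)) * A b) i j * x (b, j)) := by
      intro b j
      simp [comp]
    simp only [e1, Finset.sum_neg_distrib]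
    rw [Pi.neg_apply, mulVec_sum]
    simp only [mulVec_mulVec, Finset.sum_apply]
    rfl

/-- the coefficients divided by `η` -/
noncomputable def Bm (η : ℍ[ℝ]) (A : ℕ → Matrix (Fin n) (Fin n) ℍ[ℝ]) :
    ℕ → Matrix (Fin n) (Fin n) ℍ[ℝ] := fun k i j => -η * A k i j

theorem Bm_mulVec (η : ℍ[ℝ]) (k : ℕ) (v : Fin n → ℍ[ℝ]) :
    Bm η A k *ᵥ v = fun i => -η * (A k *ᵥ v) i := by
  funext i
  simp only [Bm, mulVec, dotProduct, Finset.mul_sum, mul_assoc]

theorem Bm_sum {η : ℍ[ℝ]} {X : ℕ → Fin n → ℍ[ℝ]}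
    (h : ∑ k ∈ Finset.range (ℓ + 1), A k *ᵥ X k = 0) :
    ∑ k ∈ Finset.range (ℓ + 1), Bm η A k *ᵥ X k = 0 := by
  simp only [Bm_mulVec]
  funext i
  have := congrFun h i
  rw [Finset.sum_apply] at this ⊢
  rw [← Finset.mul_sum, this]
  simp

theorem Bm_herm {φ : ℍ[ℝ] →ₗ[ℝ] ℍ[ℝ]} {η : ℍ[ℝ]} (h1 : η * η = -1) (h2 : star η = -η)
    (h3 : ∀ x, φ x = -(η * star x * η)) (hB : HypB φ ℓ A) (k : ℕ) (hk : k ≤ ℓ) :
    (Bm η A k)ᴴ = ((-1 : ℝ) ^ (k + 1)) • Bm η A k := by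
  have key : ∀ x, -η * φ x = -(star x * η) := by
    intro x
    rw [h3, neg_mul_neg, ← mul_assoc, ← mul_assoc, h1]
    noncomm_ring
  ext1 i j
  rw [conjTranspose_apply]
  show star (-η * A k j i) = ((-1 : ℝ) ^ (k + 1)) • (-η * A k i j)
  rw [star_mul, star_neg, h2, neg_neg]
  rcases Nat.even_or_odd k with hk' | hk'
  · have e1 : φ (A k j i) = A k i j := congrFun (congrFun (hB.2.1 k hk hk') i) j
    rw [← e1, key, pow_succ, hk'.neg_one_pow]
    simp
  · have e1 : φ (A k j i) = -A k i j := congrFun (congrFun (hB.2.2 k hk hk') i) j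
    have e2 : A k i j = -φ (A k j i) := by rw [e1, neg_neg]
    rw [e2, mul_neg, key, pow_succ, hk'.neg_one_pow]
    simp

/-- the hermitian form on `ℍ^{ℓ n}` -/
noncomputable def hf (ℓ : ℕ) (η : ℍ[ℝ]) (A : ℕ → Matrix (Fin n) (Fin n) ℍ[ℝ])
    (x y : Fin ℓ × Fin n → ℍ[ℝ]) : ℍ[ℝ] :=
  form ℓ (Bm η A) (blocks ℓ A x) (blocks ℓ A y)

theorem hf_phi {φ : ℍ[ℝ] →ₗ[ℝ] ℍ[ℝ]} {η : ℍ[ℝ]} 
    (h3 : ∀ x, φ x = -(η * star x * η)) (x : Fin ℓ × Fin n → ℍ[ℝ]) :
    ∑ p, φ (x p) * (Gmat ℓ A *ᵥ x) p = η * hf ℓ η A x x := by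
  rw [hf, form_eq, Finset.mul_sum, Fintype.sum_prod_type]
  refine Finset.sum_congr rfl fun a _ => ?_
  rw [Finset.mul_sum]
  have e1 : ∀ i : Fin n, φ (x (a, i)) * (Gmat ℓ A *ᵥ x) (a, i) =
      ∑ b : Fin ℓ, if (a : ℕ) + b + 1 ≤ ℓ then
        η * ((-1 : ℝ) ^ (a : ℕ)) • (star (x (a, i)) * (Bm η A (a + b + 1) *ᵥ fun j => x (b, j)) i)
        else 0 := by
    intro i
    have e2 : (Gmat ℓ A *ᵥ x) (a, i) = ∑ b : Fin ℓ, if (a : ℕ) + b + 1 ≤ ℓ then
        ((-1 : ℝ) ^ (a : ℕ)) • (A (a + b + 1) *ᵥ fun j => x (b, j)) i else 0 := by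
      show ∑ q, Gmat ℓ A (a, i) q * x q = _
      rw [Fintype.sum_prod_type]
      refine Finset.sum_congr rfl fun b _ => ?_
      split_ifs with h
      · simp only [Gmat, h, if_true, mulVec, dotProduct, Finset.smul_sum]
        refine Finset.sum_congr rfl fun j _ => ?_
        rcases Nat.even_or_odd (a : ℕ) with ha | ha
        · simp [ha.neg_one_pow]
        · simp [ha.neg_one_pow]
      · simp [Gmat, h]
    rw [e2, Finset.mul_sum]
    refine Finset.sum_congr rfl fun b _ => ?_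
    split_ifs with h
    · rw [Bm_mulVec, h3, mul_smul_comm, mul_smul_comm]
      congr 1
      noncomm_ring
    · rw [mul_zero]
  simp only [e1]
  rw [Finset.sum_comm]
  refine Finset.sum_congr rfl fun b _ => ?_
  split_ifs with h
  · rw [blocks_fin, blocks_fin, ← Finset.mul_sum, ← Finset.smul_sum]
    rfl
  · simp

theorem hf_star {φ : ℍ[ℝ] →ₗ[ℝ] ℍ[ℝ]} {η : ℍ[ℝ]} (h1 : η * η = -1) (h2 : star η = -η)
    (h3 : ∀ x, φ x = -(η * star x * η)) (hB : HypB φ ℓ A) (x y : Fin ℓ × Fin n → ℍ[ℝ]) :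
    star (hf ℓ η A x y) = hf ℓ η A y x :=
  form_star (Bm_herm h1 h2 h3 hB) _ _

theorem hf_skew {φ : ℍ[ℝ] →ₗ[ℝ] ℍ[ℝ]} {η : ℍ[ℝ]} (h1 : η * η = -1) (h2 : star η = -η)
    (h3 : ∀ x, φ x = -(η * star x * η)) (hB : HypB φ ℓ A) (x y : Fin ℓ × Fin n → ℍ[ℝ]) :
    hf ℓ η A (comp ℓ A *ᵥ x) y = -hf ℓ η A x (comp ℓ A *ᵥ y) := by
  have e := form_skew (Bm_herm h1 h2 h3 hB) (blocks ℓ A x) (blocks ℓ A y)
    (Bm_sum (blocks_sum hB.1 x)) (Bm_sum (blocks_sum hB.1 y))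
  have e1 : hf ℓ η A (comp ℓ A *ᵥ x) y =
      form ℓ (Bm η A) (fun a => blocks ℓ A x (a + 1)) (blocks ℓ A y) :=
    form_congr _ (fun a ha => comp_blocks x a ha) (fun _ _ => rfl)
  have e2 : hf ℓ η A x (comp ℓ A *ᵥ y) =
      form ℓ (Bm η A) (blocks ℓ A x) (fun a => blocks ℓ A y (a + 1)) :=
    form_congr _ (fun _ _ => rfl) (fun a ha => comp_blocks y a ha)
  rw [e1, e2]
  exact eq_neg_of_add_eq_zero_left e

theorem hf_add_right (η : ℍ[ℝ]) (x y z : Fin ℓ × Fin n → ℍ[ℝ]) :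
    hf ℓ η A x (y + z) = hf ℓ η A x y + hf ℓ η A x z := by
  unfold hf
  rw [← form_add_right]
  refine form_congr _ (fun _ _ => rfl) (fun a ha => ?_)
  funext i
  rw [Pi.add_apply, Pi.add_apply, blocks_lt _ a ha, blocks_lt _ a ha, blocks_lt _ a ha]
  rfl

theorem hf_mul_right (η : ℍ[ℝ]) (x y : Fin ℓ × Fin n → ℍ[ℝ]) (q : ℍ[ℝ]) :
    hf ℓ η A x (fun p => y p * q) = hf ℓ η A x y * q := by
  unfold hf
  rw [← form_rmul]
  refine form_congr _ (fun _ _ => rfl) (fun a ha => ?_)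
  funext i
  rw [rmul, blocks_lt _ a ha, blocks_lt _ a ha]

end Companion

/-! ### Isotropic eigenvectors -/

section Isotropic

theorem re_cyc (q α p : ℍ[ℝ]) :
    (q * (α * p - p * α)).re = ((q * α - α * q) * p).re := by
  simp
  ring

theorem anti_comm {α : ℍ[ℝ]} (hα : α.re = 0) (p : ℍ[ℝ]) :
    (α * p - p * α) * α = -(α * (α * p - p * α)) := by
  ext <;> simp [hα] <;> ring

/-- a unit quaternion anticommuting with `α` such that `q β` has real part `0` -/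
theorem exists_beta {α : ℍ[ℝ]} (hα : α.re = 0) (hα0 : α ≠ 0) (q : ℍ[ℝ]) :
    ∃ β : ℍ[ℝ], β * α = -(α * β) ∧ star β * β = 1 ∧ (q * β).re = 0 := by
  have key : ∃ β : ℍ[ℝ], β ≠ 0 ∧ β * α = -(α * β) ∧ (q * β).re = 0 := by
    by_cases hq : q * α - α * q = 0
    · have : α * qi - qi * α ≠ 0 ∨ α * qj - qj * α ≠ 0 := by
        by_contra hcon
        push Not at hcon
        obtain ⟨h1, h2⟩ := hcon
        have c1 := congrArg QuaternionAlgebra.imJ h1
        have c2 := congrArg QuaternionAlgebra.imK h1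
        have c3 := congrArg QuaternionAlgebra.imK h2
        simp at c1 c2 c3
        apply hα0
        ext
        · exact hα
        · show α.imI = 0
          linarith
        · show α.imJ = 0
          linarith
        · show α.imK = 0
          linarith
      rcases this with h | h
      · exact ⟨_, h, anti_comm hα _, by rw [re_cyc, hq, zero_mul]; rfl⟩
      · exact ⟨_, h, anti_comm hα _, by rw [re_cyc, hq, zero_mul]; rfl⟩
    · refine ⟨α * q - q * α, ?_, anti_comm hα q, ?_⟩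
      · intro h
        apply hq
        rw [← neg_eq_zero, ← h]
        abel
      · simp
        ring
  obtain ⟨β, h0, h1, h2⟩ := key
  have hne : ‖β‖ ≠ 0 := norm_ne_zero_iff.mpr h0
  refine ⟨(‖β‖⁻¹ : ℝ) • β, ?_, ?_, ?_⟩
  · rw [smul_mul_assoc, h1, mul_smul_comm, smul_neg]
  · rw [Quaternion.star_smul, smul_mul_smul_comm, Quaternion.star_mul_self,
      Quaternion.normSq_eq_norm_mul_self, ← Quaternion.coe_smul, smul_eq_mul]
    have : ‖β‖⁻¹ * ‖β‖⁻¹ * (‖β‖ * ‖β‖) = 1 := by field_simp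
    rw [this]
    simp
  · rw [mul_smul_comm]
    show ((‖β‖⁻¹ : ℝ) • (q * β)).re = 0
    rw [Quaternion.re_smul, h2, smul_zero]

theorem eq_coe_of_star {a : ℍ[ℝ]} (h : star a = a) : a = (a.re : ℍ[ℝ]) := by
  have c1 := congrArg QuaternionAlgebra.imI h
  have c2 := congrArg QuaternionAlgebra.imJ h
  have c3 := congrArg QuaternionAlgebra.imK h
  simp at c1 c2 c3
  ext <;> simp <;> linarith

variable {ι : Type} [Fintype ι] [DecidableEq ι]

/-- right multiplication -/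
noncomputable def rm (x : ι → ℍ[ℝ]) (q : ℍ[ℝ]) : ι → ℍ[ℝ] := fun p => x p * q

omit [DecidableEq ι] in
theorem mulVec_rm (M : Matrix ι ι ℍ[ℝ]) (x : ι → ℍ[ℝ]) (q : ℍ[ℝ]) :
    M *ᵥ rm x q = rm (M *ᵥ x) q := by
  funext i
  simp only [rm, mulVec, dotProduct, Finset.sum_mul, mul_assoc]

/-- the data of a hermitian form for which `C` is skew -/
structure FormData (C : Matrix ι ι ℍ[ℝ]) (h : (ι → ℍ[ℝ]) → (ι → ℍ[ℝ]) → ℍ[ℝ]) : Prop where
  hstar : ∀ x y, star (h x y) = h y x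
  hadd : ∀ x y z, h x (y + z) = h x y + h x z
  hmul : ∀ x y q, h x (rm y q) = h x y * q
  hskew : ∀ x y, h (C *ᵥ x) y = -h x (C *ᵥ y)

variable {C : Matrix ι ι ℍ[ℝ]} {h : (ι → ℍ[ℝ]) → (ι → ℍ[ℝ]) → ℍ[ℝ]}

omit [DecidableEq ι] in
theorem FormData.zero_right (H : FormData C h) (x : ι → ℍ[ℝ]) : h x 0 = 0 := by
  have := H.hmul x 0 0
  rw [mul_zero] at this
  rw [← this]
  congr 1
  funext p
  simp [rm]

omit [DecidableEq ι] in
theorem FormData.add_left (H : FormData C h) (x y z : ι → ℍ[ℝ]) :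
    h (x + y) z = h x z + h y z := by
  rw [← H.hstar, H.hadd, star_add, H.hstar, H.hstar]

omit [DecidableEq ι] in
theorem FormData.mul_left (H : FormData C h) (x y : ι → ℍ[ℝ]) (q : ℍ[ℝ]) :
    h (rm x q) y = star q * h x y := by
  rw [← H.hstar, H.hmul, star_mul, H.hstar]

omit [DecidableEq ι] in
theorem FormData.smul_left (H : FormData C h) (x y : ι → ℍ[ℝ]) (r : ℝ) :
    h (r • x) y = r • h x y := by
  have : r • x = rm x (r : ℍ[ℝ]) := by
    funext p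
    rw [rm, Pi.smul_apply, Quaternion.mul_coe_eq_smul]
  rw [this, H.mul_left, Quaternion.star_coe, Quaternion.coe_mul_eq_smul]

omit [DecidableEq ι] in
theorem FormData.smul_right (H : FormData C h) (x y : ι → ℍ[ℝ]) (r : ℝ) :
    h x (r • y) = r • h x y := by
  have : r • y = rm y (r : ℍ[ℝ]) := by
    funext p
    rw [rm, Pi.smul_apply, Quaternion.mul_coe_eq_smul]
  rw [this, H.hmul, Quaternion.mul_coe_eq_smul]

/-- the last nonzero vector `Pᵐ x` is isotropic when `P` is (skew-)symmetric -/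
theorem exists_last (P : Matrix ι ι ℍ[ℝ]) (e : ℝ) (H : FormData C h)
    (hP : ∀ x y, h (P *ᵥ x) y = e • h x (P *ᵥ y)) (x : ι → ℍ[ℝ]) (hx : x ≠ 0) (hxx : h x x = 0)
    (N : ℕ) (hN : (P ^ N) *ᵥ x = 0) : ∃ z, z ≠ 0 ∧ P *ᵥ z = 0 ∧ h z z = 0 := by
  classical
  have hex : ∃ m, (P ^ m) *ᵥ x = 0 := ⟨N, hN⟩
  obtain ⟨m, hm⟩ : ∃ m, Nat.find hex = m + 1 := by
    have : Nat.find hex ≠ 0 := by
      intro h0
      have := Nat.find_spec hex
      rw [h0, pow_zero, one_mulVec] at this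
      exact hx this
    exact ⟨Nat.find hex - 1, by omega⟩
  have h1 : (P ^ (m + 1)) *ᵥ x = 0 := by
    rw [← hm]
    exact Nat.find_spec hex
  have h2 : (P ^ m) *ᵥ x ≠ 0 := Nat.find_min hex (by omega)
  refine ⟨(P ^ m) *ᵥ x, h2, ?_, ?_⟩
  · rw [mulVec_mulVec, ← pow_succ', h1]
  · rcases m with _ | m
    · rw [pow_zero, one_mulVec, hxx]
    · have e1 : (P ^ (m + 1)) *ᵥ x = P *ᵥ ((P ^ m) *ᵥ x) := by
        rw [mulVec_mulVec, ← pow_succ']
      have e2 : P *ᵥ ((P ^ (m + 1)) *ᵥ x) = 0 := by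
        rw [mulVec_mulVec, ← pow_succ', h1]
      conv_lhs => rw [show h ((P ^ (m + 1)) *ᵥ x) ((P ^ (m + 1)) *ᵥ x) =
        h (P *ᵥ ((P ^ m) *ᵥ x)) ((P ^ (m + 1)) *ᵥ x) by rw [e1]]
      rw [hP, e2, H.zero_right, smul_zero]

theorem exists_isotropic (H : FormData C h) {α : ℍ[ℝ]} (hα : α.re = 0) (x : ι → ℍ[ℝ]) (hx : x ≠ 0)
    (hxx : h x x = 0) (N : ℕ) (hN : (pC C α ^ N) *ᵥ x = 0) :
    ∃ y, y ≠ 0 ∧ C *ᵥ y = rm y α ∧ h y y = 0 := by
  by_cases him : α.im = 0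
  · -- `α = 0`
    have hα0 : α = 0 := by
      have c1 := congrArg QuaternionAlgebra.imI him
      have c2 := congrArg QuaternionAlgebra.imJ him
      have c3 := congrArg QuaternionAlgebra.imK him
      simp at c1 c2 c3
      ext
      · exact hα
      · exact c1
      · exact c2
      · exact c3
    have hp : pC C α = C := by
      rw [pC, if_pos him, hα, zero_smul, sub_zero]
    rw [hp] at hN
    obtain ⟨z, hz, hz1, hz2⟩ := exists_last C (-1) H
      (fun x y => by rw [H.hskew, neg_smul, one_smul]) x hx hxx N hN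
    refine ⟨z, hz, ?_, hz2⟩
    rw [hz1, hα0]
    funext p
    simp [rm]
  · have hα0 : α ≠ 0 := by
      rintro rfl
      exact him rfl
    have hp : ∀ x, pC C α *ᵥ x = C *ᵥ (C *ᵥ x) + (‖α‖ ^ 2) • x := by
      intro x
      rw [pC, if_neg him, hα, mul_zero, zero_smul, sub_zero, add_mulVec, sq C, ← mulVec_mulVec,
        smul_mulVec, one_mulVec]
    obtain ⟨z, hz, hz1, hz2⟩ := exists_last (pC C α) 1 H
      (fun x y => by
        rw [hp, hp, H.add_left, H.hadd, H.hskew, H.hskew, H.smul_left, H.smul_right, neg_neg,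
          one_smul]) x hx hxx N hN
    have hzz : C *ᵥ (C *ᵥ z) = -((‖α‖ ^ 2) • z) := by
      rw [hp] at hz1
      exact eq_neg_of_add_eq_zero_left hz1
    have hαα : α * α = -((‖α‖ ^ 2 : ℝ) : ℍ[ℝ]) := by
      have hst : star α = -α := by
        ext <;> simp [hα]
      have e1 : α * star α = ((‖α‖ ^ 2 : ℝ) : ℍ[ℝ]) := by
        rw [Quaternion.self_mul_star, Quaternion.normSq_eq_norm_mul_self, sq]
      rw [← e1, hst, mul_neg, neg_neg]
    have hzα : rm (rm z α) α = -((‖α‖ ^ 2) • z) := by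
      funext p
      show z p * α * α = -((‖α‖ ^ 2) • z p)
      rw [mul_assoc, hαα, mul_neg, Quaternion.mul_coe_eq_smul]
    have rm_add : ∀ (u v : ι → ℍ[ℝ]) (q : ℍ[ℝ]), rm (u + v) q = rm u q + rm v q := by
      intro u v q
      funext p
      exact add_mul _ _ _
    have rm_neg : ∀ (u : ι → ℍ[ℝ]) (q : ℍ[ℝ]), rm (-u) q = -rm u q := by
      intro u q
      funext p
      exact neg_mul _ _
    have h_neg_right : ∀ u v, h u (-v) = -h u v := by
      intro u v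
      have := H.smul_right u v (-1)
      rwa [neg_smul, one_smul, neg_smul, one_smul] at this
    have h_neg_left : ∀ u v, h (-u) v = -h u v := by
      intro u v
      have := H.smul_left u v (-1)
      rwa [neg_smul, one_smul, neg_smul, one_smul] at this
    obtain ⟨y1, hy1d⟩ : ∃ y1, y1 = C *ᵥ z + rm z α := ⟨_, rfl⟩
    obtain ⟨y2, hy2d⟩ : ∃ y2, y2 = C *ᵥ z + -rm z α := ⟨_, rfl⟩
    have hy1 : C *ᵥ y1 = rm y1 α := by
      rw [hy1d, mulVec_add, rm_add, hzz, mulVec_rm, hzα, add_comm]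
    have hy2 : C *ᵥ y2 = -rm y2 α := by
      rw [hy2d, mulVec_add, mulVec_neg, rm_add, rm_neg, hzz, mulVec_rm, hzα]
      abel
    have hCz : h (C *ᵥ z) (C *ᵥ z) = 0 := by
      rw [H.hskew, hzz, h_neg_right, H.smul_right, hz2, smul_zero, neg_zero, neg_zero]
    have hzαα : h (rm z α) (rm z α) = 0 := by
      rw [H.hmul, H.mul_left, hz2, mul_zero, zero_mul]
    have hsum : h y1 y1 + h y2 y2 = 0 := by
      rw [hy1d, hy2d]
      simp only [H.hadd, H.add_left, h_neg_left, h_neg_right, hCz, hzαα]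
      abel
    obtain ⟨β, hβ1, hβ2, hβ3⟩ := exists_beta hα hα0 (h y1 y2)
    have h22 : h y2 y2 = ((h y2 y2).re : ℍ[ℝ]) := eq_coe_of_star (H.hstar y2 y2)
    have hβ22 : star β * h y2 y2 * β = h y2 y2 := by
      rw [h22, ← Quaternion.coe_commutes, mul_assoc, hβ2, mul_one]
    have hcross : h y1 y2 * β + star β * h y2 y1 = 0 := by
      have e1 : star β * h y2 y1 = star (h y1 y2 * β) := by rw [star_mul, H.hstar]
      rw [e1]
      ext
      · simp
        have := hβ3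
        simp at this
        linarith
      · simp; ring
      · simp; ring
      · simp; ring
    have hC2 : C *ᵥ rm y2 β = rm (rm y2 β) α := by
      rw [mulVec_rm, hy2, rm_neg]
      funext p
      show -(y2 p * α * β) = y2 p * β * α
      rw [mul_assoc, mul_assoc, hβ1, mul_neg]
    -- the two candidates
    have hiso : ∀ e : ℝ, e * e = 1 → h (y1 + e • rm y2 β) (y1 + e • rm y2 β) = 0 := by
      intro e he
      simp only [H.hadd, H.add_left, H.smul_left, H.smul_right, H.hmul, H.mul_left]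
      rw [hβ22]
      have e1 : e • e • h y2 y2 = h y2 y2 := by
        rw [smul_smul, he, one_smul]
      have e2 : e • (star β * h y2 y1) + e • (h y1 y2 * β) = 0 := by
        rw [← smul_add, add_comm, hcross, smul_zero]
      have e4 : h y1 y1 + h y2 y2 + (e • (star β * h y2 y1) + e • (h y1 y2 * β)) = 0 := by
        rw [e2, hsum, add_zero]
      rw [e1, ← e4]
      abel
    have heig : ∀ e : ℝ, C *ᵥ (y1 + e • rm y2 β) = rm (y1 + e • rm y2 β) α := by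
      intro e
      have : e • rm y2 β = rm (rm y2 β) (e : ℍ[ℝ]) := by
        funext p
        show e • (y2 p * β) = y2 p * β * (e : ℍ[ℝ])
        rw [Quaternion.mul_coe_eq_smul]
      rw [mulVec_add, rm_add, hy1, this, mulVec_rm, hC2]
      congr 1
      funext p
      show y2 p * β * α * (e : ℍ[ℝ]) = y2 p * β * (e : ℍ[ℝ]) * α
      rw [mul_assoc _ α, mul_assoc _ (e : ℍ[ℝ]), Quaternion.coe_commutes]
    by_cases hy : y1 + (1 : ℝ) • rm y2 β = 0
    · by_cases hy' : y1 + (-1 : ℝ) • rm y2 β = 0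
      · exfalso
        rw [one_smul] at hy
        rw [neg_smul, one_smul] at hy'
        have g1 : y1 = 0 := by
          have : (2 : ℝ) • y1 = 0 := by
            rw [two_smul]
            have : y1 + y1 = (y1 + rm y2 β) + (y1 + -rm y2 β) := by abel
            rw [this, hy, hy', add_zero]
          exact (smul_eq_zero.mp this).resolve_left two_ne_zero
        have g2 : rm y2 β = 0 := by rw [g1, zero_add] at hy; exact hy
        have hβ0 : β ≠ 0 := by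
          rintro rfl
          simp at hβ2
        have g3 : y2 = 0 := by
          funext p
          have := congrFun g2 p
          exact (mul_eq_zero.mp this).resolve_right hβ0
        have g4 : rm z α = 0 := by
          have : (2 : ℝ) • rm z α = y1 - y2 := by
            rw [hy1d, hy2d, two_smul]
            abel
          rw [g1, g3, sub_zero] at this
          exact (smul_eq_zero.mp this).resolve_left two_ne_zero
        apply hz
        funext p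
        have := congrFun g4 p
        exact (mul_eq_zero.mp this).resolve_right hα0
      · exact ⟨_, hy', heig _, hiso _ (by norm_num)⟩
    · exact ⟨_, hy, heig _, hiso _ (by norm_num)⟩

end Isotropic

/-! ### Eigenvectors of the companion matrix -/

section Eigen

variable {n : ℕ} {ℓ : ℕ} {A : ℕ → Matrix (Fin n) (Fin n) ℍ[ℝ]}

theorem eigen_blocks {α : ℍ[ℝ]} {y : Fin ℓ × Fin n → ℍ[ℝ]} (hy : comp ℓ A *ᵥ y = rm y α)
    (a : ℕ) (ha : a ≤ ℓ) :
    blocks ℓ A y a = rm (blocks ℓ A y 0) (α ^ a) := by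
  induction a with
  | zero =>
    funext i
    simp [rm]
  | succ a ih =>
    have h : a < ℓ := by omega
    rw [← comp_blocks y a h, hy]
    funext i
    rw [blocks_lt _ a h]
    show y (⟨a, h⟩, i) * α = _
    rw [← blocks_lt (A := A) y a h, ih (by omega), rm, rm, mul_assoc, ← pow_succ]

theorem eigen_ne {α : ℍ[ℝ]} {y : Fin ℓ × Fin n → ℍ[ℝ]} (hy : comp ℓ A *ᵥ y = rm y α)
    (hy0 : y ≠ 0) : blocks ℓ A y 0 ≠ 0 := by
  intro h
  apply hy0
  funext p
  rw [← blocks_lt (A := A) y p.1 p.1.2 p.2, eigen_blocks hy _ p.1.2.le, h]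
  simp [rm]

theorem eigen_sum (hA : IsUnit (A ℓ)) {α : ℍ[ℝ]} {y : Fin ℓ × Fin n → ℍ[ℝ]}
    (hy : comp ℓ A *ᵥ y = rm y α) :
    ∑ k ∈ Finset.range (ℓ + 1), A k *ᵥ rm (blocks ℓ A y 0) (α ^ k) = 0 := by
  rw [← blocks_sum hA y]
  refine Finset.sum_congr rfl fun k hk => ?_
  rw [Finset.mem_range] at hk
  rw [eigen_blocks hy k (by omega)]

theorem star_rm_dot (u w : Fin n → ℍ[ℝ]) (q : ℍ[ℝ]) :
    star (rm u q) ⬝ᵥ w = star q * (star u ⬝ᵥ w) := by
  simp only [dotProduct, Finset.mul_sum, Pi.star_apply, rm, star_mul, mul_assoc]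

theorem dot_rm (u w : Fin n → ℍ[ℝ]) (q : ℍ[ℝ]) :
    u ⬝ᵥ rm w q = (u ⬝ᵥ w) * q := by
  simp only [dotProduct, Finset.sum_mul, rm, mul_assoc]

theorem re_comm (a b : ℍ[ℝ]) : (a * b).re = (b * a).re := by
  simp
  ring

theorem star_pow_im {α : ℍ[ℝ]} (hα : α.re = 0) (a : ℕ) :
    star (α ^ a) = ((-1 : ℝ) ^ a) • α ^ a := by
  have hst : star α = (-1 : ℝ) • α := by
    ext <;> simp [hα]
  rw [star_pow, hst, smul_pow]

/-- the real part -/
noncomputable def reL : ℍ[ℝ] →ₗ[ℝ] ℝ where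
  toFun q := q.re
  map_add' _ _ := rfl
  map_smul' r q := by
    show (r • q).re = r • q.re
    rw [Quaternion.re_smul]

theorem reL_apply (q : ℍ[ℝ]) : reL q = q.re := rfl

theorem eigen_form {η α : ℍ[ℝ]} (hα : α.re = 0) {y : Fin ℓ × Fin n → ℍ[ℝ]}
    (hy : comp ℓ A *ᵥ y = rm y α) (hyy : hf ℓ η A y y = 0) :
    ∑ k ∈ Finset.range ℓ, ((k : ℝ) + 1) *
      reL ((star (blocks ℓ A y 0) ⬝ᵥ (Bm η A (k + 1) *ᵥ blocks ℓ A y 0)) * α ^ k) = 0 := by
  have h0 : reL (form ℓ (Bm η A) (blocks ℓ A y) (blocks ℓ A y)) = 0 := by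
    have := congrArg reL hyy
    rw [map_zero] at this
    exact this
  set v := blocks ℓ A y 0 with hv
  rw [form_congr (X' := fun a => rm v (α ^ a)) (Y' := fun a => rm v (α ^ a)) _
    (fun a ha => eigen_blocks hy a ha.le) (fun a ha => eigen_blocks hy a ha.le)] at h0
  refine Eq.trans ?_ h0
  unfold form
  rw [map_sum]
  refine Finset.sum_congr rfl fun k _ => ?_
  rw [map_sum]
  have e1 : ∀ x ∈ Finset.HasAntidiagonal.antidiagonal k,
      reL (((-1 : ℝ) ^ x.1) • (star (rm v (α ^ x.1)) ⬝ᵥ (Bm η A (k + 1) *ᵥ rm v (α ^ x.2)))) =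
      reL ((star v ⬝ᵥ (Bm η A (k + 1) *ᵥ v)) * α ^ k) := by
    intro x hx
    rw [Finset.HasAntidiagonal.mem_antidiagonal] at hx
    rw [mulVec_rm, star_rm_dot, dot_rm, star_pow_im hα, smul_mul_assoc, smul_smul, ← mul_pow,
      neg_one_mul, neg_neg, one_pow, one_smul, reL_apply, re_comm, reL_apply, mul_assoc, ← pow_add,
      add_comm x.2, hx]
  rw [Finset.sum_congr rfl e1, Finset.sum_const, Finset.Nat.card_antidiagonal, nsmul_eq_mul]
  push_cast
  ring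

end Eigen

/-! ### Exponential solutions -/

section Exponential

variable {n : ℕ}

/-- the function `t ↦ w exp (t μ)` -/
noncomputable def ex (μ : ℍ[ℝ]) (w : Fin n → ℍ[ℝ]) : ℝ → Fin n → ℍ[ℝ] :=
  fun t => rm w (NormedSpace.exp (t • μ))

theorem ex_hasDeriv (μ : ℍ[ℝ]) (w : Fin n → ℍ[ℝ]) (t : ℝ) :
    HasDerivAt (ex μ w) (ex μ (rm w μ) t) t := by
  rw [hasDerivAt_pi]
  intro i
  have := (hasDerivAt_exp_smul_const' (𝕂 := ℝ) μ t).const_mul (w i)
  rw [← mul_assoc] at this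
  exact this

theorem ex_deriv (μ : ℍ[ℝ]) (w : Fin n → ℍ[ℝ]) : deriv (ex μ w) = ex μ (rm w μ) := by
  funext t
  exact (ex_hasDeriv μ w t).deriv

theorem ex_iteratedDeriv (μ : ℍ[ℝ]) (k : ℕ) : ∀ w : Fin n → ℍ[ℝ],
    iteratedDeriv k (ex μ w) = ex μ (rm w (μ ^ k)) := by
  induction k with
  | zero =>
    intro w
    rw [iteratedDeriv_zero, pow_zero]
    congr 1
    funext i
    simp [rm]
  | succ k ih =>
    intro w
    rw [iteratedDeriv_succ', ex_deriv, ih]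
    congr 1
    funext i
    simp only [rm]
    rw [mul_assoc, pow_succ']

theorem ex_contDiff (μ : ℍ[ℝ]) (k : ℕ) : ∀ w : Fin n → ℍ[ℝ], ContDiff ℝ k (ex μ w) := by
  induction k with
  | zero =>
    intro w
    rw [Nat.cast_zero, contDiff_zero, continuous_iff_continuousAt]
    intro t
    exact (ex_hasDeriv μ w t).continuousAt
  | succ k ih =>
    intro w
    rw [Nat.cast_succ, contDiff_succ_iff_deriv]
    refine ⟨fun t => (ex_hasDeriv μ w t).differentiableAt, ?_, ?_⟩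
    · intro h
      exact absurd h (by exact_mod_cast WithTop.coe_ne_top)
    · rw [ex_deriv]
      exact ih _

theorem rm_sum {κ : Type} (S : Finset κ) (w : κ → Fin n → ℍ[ℝ]) (q : ℍ[ℝ]) :
    rm (∑ k ∈ S, w k) q = ∑ k ∈ S, rm (w k) q := by
  funext i
  rw [rm, Finset.sum_apply, Finset.sum_apply, Finset.sum_mul]
  rfl

theorem ex_solution {ℓ : ℕ} {A : ℕ → Matrix (Fin n) (Fin n) ℍ[ℝ]} {μ : ℍ[ℝ]}
    {v : Fin n → ℍ[ℝ]} (h : ∑ k ∈ Finset.range (ℓ + 1), A k *ᵥ rm v (μ ^ k) = 0) :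
    IsSolution ℓ A (ex μ v) := by
  refine ⟨ex_contDiff μ ℓ v, fun t => ?_⟩
  have e1 : ∀ k ∈ Finset.range (ℓ + 1), A k *ᵥ iteratedDeriv k (ex μ v) t =
      rm (A k *ᵥ rm v (μ ^ k)) (NormedSpace.exp (t • μ)) := by
    intro k _
    rw [ex_iteratedDeriv, ex, mulVec_rm]
  rw [Finset.sum_congr rfl e1, ← rm_sum, h]
  funext i
  exact zero_mul _

theorem ex_unbounded {μ : ℍ[ℝ]} (hμ : μ.re ≠ 0) {v : Fin n → ℍ[ℝ]} (hv : v ≠ 0) :
    ¬ ∃ M, ∀ t, ‖ex μ v t‖ ≤ M := by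
  rintro ⟨M, hM⟩
  obtain ⟨i, hi⟩ : ∃ i, v i ≠ 0 := by
    by_contra hcon
    push Not at hcon
    exact hv (funext hcon)
  have hvi : 0 < ‖v i‖ := norm_pos_iff.mpr hi
  have h1 : ∀ t : ℝ, ‖v i‖ * Real.exp (t * μ.re) ≤ M := by
    intro t
    have e1 : ‖ex μ v t i‖ ≤ M := (norm_le_pi_norm _ i).trans (hM t)
    have e2 : ‖ex μ v t i‖ = ‖v i‖ * Real.exp (t * μ.re) := by
      rw [ex, rm, norm_mul, Quaternion.norm_exp, Quaternion.re_smul, smul_eq_mul,
        ← Real.exp_eq_exp_ℝ, Real.norm_eq_abs, abs_of_pos (Real.exp_pos _)]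
    rwa [e2] at e1
  have h2 := h1 ((M / ‖v i‖) / μ.re)
  rw [div_mul_cancel₀ _ hμ] at h2
  have h3 := Real.add_one_le_exp (M / ‖v i‖)
  have h4 : ‖v i‖ * (M / ‖v i‖ + 1) ≤ M := (mul_le_mul_of_nonneg_left h3 hvi.le).trans h2
  have h5 : ‖v i‖ * (M / ‖v i‖ + 1) = M + ‖v i‖ := by field_simp
  linarith

end Exponential

/-! ### The perturbation -/

section Perturb

variable {n : ℕ} {ℓ : ℕ} {A : ℕ → Matrix (Fin n) (Fin n) ℍ[ℝ]}

/-- a skew-hermitian matrix sending `v` to `u` -/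
noncomputable def Dm (v u : Fin n → ℍ[ℝ]) (N : ℝ) : Matrix (Fin n) (Fin n) ℍ[ℝ] := fun i j =>
  N⁻¹ • (u i * star (v j) - v i * star (u j)) -
    (N⁻¹ * N⁻¹) • (v i * (star v ⬝ᵥ u) * star (v j))

theorem star_of_re {γ : ℍ[ℝ]} (h : reL γ = 0) : star γ = -γ := by
  have h' : γ.re = 0 := h
  ext <;> simp [h']

theorem Dm_star {v u : Fin n → ℍ[ℝ]} {N : ℝ} (hu : reL (star v ⬝ᵥ u) = 0) (i j : Fin n) :
    star (Dm v u N j i) = -Dm v u N i j := by
  have h := star_of_re hu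
  rw [Dm, Dm, star_sub, Quaternion.star_smul, Quaternion.star_smul, star_sub, star_mul, star_mul,
    star_mul, star_mul, star_star, star_star, h, neg_mul, mul_neg, smul_neg,
    ← neg_sub (u i * star (v j)), smul_neg, ← mul_assoc]
  abel

theorem Dm_mulVec {v u : Fin n → ℍ[ℝ]} {N : ℝ} (hN : star v ⬝ᵥ v = (N : ℍ[ℝ])) (hN0 : N ≠ 0)
    (hu : reL (star v ⬝ᵥ u) = 0) : Dm v u N *ᵥ v = u := by
  have h := star_of_re hu
  have h' : star u ⬝ᵥ v = -(star v ⬝ᵥ u) := by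
    rw [← h, ← star_dotProduct_star, star_star]
  funext i
  have e1 : (Dm v u N *ᵥ v) i = N⁻¹ • (u i * (star v ⬝ᵥ v) - v i * (star u ⬝ᵥ v)) -
      (N⁻¹ * N⁻¹) • (v i * (star v ⬝ᵥ u) * (star v ⬝ᵥ v)) := by
    show ∑ j, Dm v u N i j * v j = _
    have e2 : ∀ j, Dm v u N i j * v j = N⁻¹ • (u i * (star (v j) * v j)) -
        N⁻¹ • (v i * (star (u j) * v j)) -
        (N⁻¹ * N⁻¹) • (v i * (star v ⬝ᵥ u) * (star (v j) * v j)) := by
      intro j
      rw [Dm, sub_mul, smul_mul_assoc, smul_mul_assoc, sub_mul, smul_sub]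
      simp only [mul_assoc]
    simp only [e2, Finset.sum_sub_distrib, ← Finset.smul_sum, ← Finset.mul_sum]
    rw [smul_sub]
    rfl
  rw [e1, hN, h', Quaternion.mul_coe_eq_smul, Quaternion.mul_coe_eq_smul, mul_neg, sub_neg_eq_add,
    smul_add, smul_smul, smul_smul, inv_mul_cancel₀ hN0, one_smul, mul_assoc N⁻¹,
    inv_mul_cancel₀ hN0, mul_one, add_sub_cancel_right]

/-- the perturbation of the coefficients -/
noncomputable def pD (η : ℍ[ℝ]) (ρ : ℝ) (D : Matrix (Fin n) (Fin n) ℍ[ℝ]) (k : ℕ) :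
    Matrix (Fin n) (Fin n) ℍ[ℝ] := fun i j =>
  if k = 0 then η * D i j else if k = 1 then (if i = j then ρ • η else 0) else 0

/-- the perturbed coefficients -/
noncomputable def pert (η : ℍ[ℝ]) (A : ℕ → Matrix (Fin n) (Fin n) ℍ[ℝ]) (ρ : ℝ)
    (D : Matrix (Fin n) (Fin n) ℍ[ℝ]) : ℕ → Matrix (Fin n) (Fin n) ℍ[ℝ] := fun k =>
  A k + pD η ρ D k

theorem pD_zero (η : ℍ[ℝ]) (ρ : ℝ) (D : Matrix (Fin n) (Fin n) ℍ[ℝ]) (i j : Fin n) :
    pD η ρ D 0 i j = η * D i j := rfl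

theorem pD_one (η : ℍ[ℝ]) (ρ : ℝ) (D : Matrix (Fin n) (Fin n) ℍ[ℝ]) (i j : Fin n) :
    pD η ρ D 1 i j = if i = j then ρ • η else 0 := rfl

theorem pD_two (η : ℍ[ℝ]) (ρ : ℝ) (D : Matrix (Fin n) (Fin n) ℍ[ℝ]) (k : ℕ) (hk : 2 ≤ k) :
    pD η ρ D k = 0 := by
  ext1 i j
  rw [pD, if_neg (by omega), if_neg (by omega)]
  rfl

theorem pert_hypB {φ : ℍ[ℝ] →ₗ[ℝ] ℍ[ℝ]} {η : ℍ[ℝ]} (h1 : η * η = -1) (h2 : star η = -η)
    (h3 : ∀ x, φ x = -(η * star x * η)) (hB : HypB φ ℓ A) (hℓ : 2 ≤ ℓ) (ρ : ℝ)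
    {D : Matrix (Fin n) (Fin n) ℍ[ℝ]} (hD : ∀ i j, star (D j i) = -D i j) :
    HypB φ ℓ (pert η A ρ D) := by
  refine ⟨?_, fun k hk hk' => ?_, fun k hk hk' => ?_⟩
  · have : pert η A ρ D ℓ = A ℓ := by
      rw [pert, pD_two η ρ D ℓ hℓ, add_zero]
    rw [this]
    exact hB.1
  · have e := hB.2.1 k hk hk'
    ext1 i j
    have e1 : φ (A k j i) = A k i j := congrFun (congrFun e i) j
    show φ (A k j i + pD η ρ D k j i) = A k i j + pD η ρ D k i j
    rw [map_add, e1]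
    congr 1
    rcases (by omega : k = 0 ∨ k = 1 ∨ 2 ≤ k) with rfl | rfl | h
    · rw [pD_zero, pD_zero, h3, star_mul, hD, h2, neg_mul_neg, mul_assoc, mul_assoc, h1, mul_neg,
        mul_one, mul_neg, neg_neg]
    · exact absurd hk' (by decide)
    · rw [pD_two η ρ D k h, Matrix.zero_apply, Matrix.zero_apply, map_zero]
  · have e := hB.2.2 k hk hk'
    ext1 i j
    have e1 : φ (A k j i) = -A k i j := congrFun (congrFun e i) j
    show φ (A k j i + pD η ρ D k j i) = -(A k i j + pD η ρ D k i j)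
    rw [map_add, e1, neg_add]
    congr 1
    rcases (by omega : k = 0 ∨ k = 1 ∨ 2 ≤ k) with rfl | rfl | h
    · exact absurd hk' (by decide)
    · rw [pD_one, pD_one]
      by_cases hij : i = j
      · rw [if_pos hij, if_pos hij.symm, map_smul, h3, h2, ← smul_neg]
        congr 1
        rw [mul_neg, h1]
        simp
      · rw [if_neg hij, if_neg (Ne.symm hij), map_zero, neg_zero]
    · rw [pD_two η ρ D k h, Matrix.zero_apply, Matrix.zero_apply, map_zero, neg_zero]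

theorem pert_sum {η μ : ℍ[ℝ]} (h1 : η * η = -1) {v : Fin n → ℍ[ℝ]} (hℓ : 2 ≤ ℓ) (ρ : ℝ)
    {D : Matrix (Fin n) (Fin n) ℍ[ℝ]}
    (hD : D *ᵥ v = fun i => η * (∑ k ∈ Finset.range (ℓ + 1), A k *ᵥ rm v (μ ^ k)) i -
      ρ • (v i * μ)) :
    ∑ k ∈ Finset.range (ℓ + 1), pert η A ρ D k *ᵥ rm v (μ ^ k) = 0 := by
  let f0 : Fin n → ℍ[ℝ] := fun i => η * (D *ᵥ v) i
  let f1 : Fin n → ℍ[ℝ] := fun i => ρ • (η * (v i * μ))
  have e1 : ∀ k ∈ Finset.range (ℓ + 1), pert η A ρ D k *ᵥ rm v (μ ^ k) =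
      A k *ᵥ rm v (μ ^ k) + ((if k = 0 then f0 else 0) + (if k = 1 then f1 else 0)) := by
    intro k _
    rw [pert, add_mulVec]
    congr 1
    rcases (by omega : k = 0 ∨ k = 1 ∨ 2 ≤ k) with rfl | rfl | h
    · rw [if_pos rfl, if_neg (by decide), add_zero]
      funext i
      simp only [mulVec, dotProduct, rm, pow_zero, mul_one, pD_zero, f0, Finset.mul_sum, mul_assoc]
    · rw [if_neg (by decide), if_pos rfl, zero_add]
      funext i
      simp only [mulVec, dotProduct, rm, pow_one, pD_one, f1]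
      rw [Finset.sum_eq_single i]
      · rw [if_pos rfl, smul_mul_assoc]
      · intro b _ hb
        rw [if_neg (Ne.symm hb), zero_mul]
      · intro h
        exact absurd (Finset.mem_univ i) h
    · rw [pD_two η ρ D k h, zero_mulVec, if_neg (by omega), if_neg (by omega), add_zero]
  rw [Finset.sum_congr rfl e1, Finset.sum_add_distrib, Finset.sum_add_distrib,
    Finset.sum_ite_eq' (Finset.range (ℓ + 1)) 0 (fun _ => f0),
    Finset.sum_ite_eq' (Finset.range (ℓ + 1)) 1 (fun _ => f1),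
    if_pos (Finset.mem_range.mpr (by omega)), if_pos (Finset.mem_range.mpr (by omega))]
  funext i
  simp only [Pi.add_apply, Pi.zero_apply, f0, f1, hD]
  rw [mul_sub, ← mul_assoc, h1, mul_smul_comm]
  noncomm_ring

theorem hasDeriv_pow (α : ℍ[ℝ]) (k : ℕ) :
    HasDerivAt (fun s : ℝ => (α + s • (1 : ℍ[ℝ])) ^ k) ((k : ℝ) • α ^ (k - 1)) 0 := by
  have hbase : HasDerivAt (fun s : ℝ => α + s • (1 : ℍ[ℝ])) 1 0 := by
    have := ((hasDerivAt_id (0 : ℝ)).smul_const (1 : ℍ[ℝ])).const_add α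
    rw [one_smul] at this
    exact this
  induction k with
  | zero =>
    simp only [pow_zero]
    rw [Nat.cast_zero, zero_smul]
    exact hasDerivAt_const _ _
  | succ k ih =>
    have h := ih.mul hbase
    have e1 : (fun s : ℝ => (α + s • (1 : ℍ[ℝ])) ^ (k + 1)) =
        (fun s : ℝ => (α + s • (1 : ℍ[ℝ])) ^ k) * (fun s : ℝ => α + s • (1 : ℍ[ℝ])) := by
      funext s
      rw [pow_succ]
      rfl
    have e2 : ((k + 1 : ℕ) : ℝ) • α ^ (k + 1 - 1) =
        (k : ℝ) • α ^ (k - 1) * (α + (0 : ℝ) • (1 : ℍ[ℝ])) +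
          (α + (0 : ℝ) • (1 : ℍ[ℝ])) ^ k * 1 := by
      rw [zero_smul, add_zero, mul_one, Nat.add_sub_cancel, smul_mul_assoc]
      rcases k with _ | k
      · simp
      · rw [Nat.add_sub_cancel, ← pow_succ, Nat.cast_succ, add_smul, one_smul]
    rw [e1, e2]
    exact h

/-- the real part as a continuous map -/
theorem reL_hasDeriv {g : ℝ → ℍ[ℝ]} {g' : ℍ[ℝ]} {x : ℝ} (hg : HasDerivAt g g' x) :
    HasDerivAt (fun s => reL (g s)) (reL g') x :=
  (LinearMap.toContinuousLinearMap reL).hasFDerivAt.comp_hasDerivAt x hg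

theorem exists_pert {φ : ℍ[ℝ] →ₗ[ℝ] ℍ[ℝ]} {η : ℍ[ℝ]} (h1 : η * η = -1) (h2 : star η = -η)
    (h3 : ∀ x, φ x = -(η * star x * η)) (hB : HypB φ ℓ A) (hℓ : 2 ≤ ℓ) {α : ℍ[ℝ]}
    (hα : α.re = 0) {v : Fin n → ℍ[ℝ]} (hv : v ≠ 0)
    (hsum : ∑ k ∈ Finset.range (ℓ + 1), A k *ᵥ rm v (α ^ k) = 0)
    (hder : ∑ k ∈ Finset.range ℓ, ((k : ℝ) + 1) *
      reL ((star v ⬝ᵥ (Bm η A (k + 1) *ᵥ v)) * α ^ k) = 0) (ε : ℝ) (hε : 0 < ε) :
    ∃ s : ℝ, 0 < s ∧ ∃ A' : ℕ → Matrix (Fin n) (Fin n) ℍ[ℝ], HypB φ ℓ A' ∧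
      (∀ k ≤ ℓ, ∀ i j, ‖A' k i j - A k i j‖ < ε) ∧
      ∑ k ∈ Finset.range (ℓ + 1), A' k *ᵥ rm v ((α + s • (1 : ℍ[ℝ])) ^ k) = 0 := by
  -- the norm of `v`
  obtain ⟨N, hN⟩ : ∃ N : ℝ, N = ∑ i, Quaternion.normSq (v i) := ⟨_, rfl⟩
  have hNv : star v ⬝ᵥ v = (N : ℍ[ℝ]) := by
    rw [hN]
    have e1 : ∀ i, star v i * v i = ((Quaternion.normSq (v i) : ℝ) : ℍ[ℝ]) := fun i =>
      Quaternion.star_mul_self (v i)
    simp only [dotProduct, e1]
    exact (map_sum (algebraMap ℝ ℍ[ℝ]) _ _).symm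
  have hN0 : 0 < N := by
    rw [hN]
    obtain ⟨i, hi⟩ : ∃ i, v i ≠ 0 := by
      by_contra hcon
      push Not at hcon
      exact hv (funext hcon)
    refine Finset.sum_pos' (fun i _ => Quaternion.normSq_nonneg) ⟨i, Finset.mem_univ i, ?_⟩
    exact lt_of_le_of_ne Quaternion.normSq_nonneg (Ne.symm (Quaternion.normSq_ne_zero.mpr hi))
  let m : ℝ → ℍ[ℝ] := fun s => α + s • (1 : ℍ[ℝ])
  let R : ℝ → Fin n → ℍ[ℝ] := fun s => ∑ k ∈ Finset.range (ℓ + 1), A k *ᵥ rm v (m s ^ k)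
  let β : ℕ → ℍ[ℝ] := fun k => star v ⬝ᵥ (Bm η A k *ᵥ v)
  let f : ℝ → ℝ := fun s => reL (star v ⬝ᵥ fun i => η * R s i)
  have hm0 : m 0 = α := by
    show α + (0 : ℝ) • (1 : ℍ[ℝ]) = α
    rw [zero_smul, add_zero]
  have hR0 : R 0 = 0 := by
    show ∑ k ∈ Finset.range (ℓ + 1), A k *ᵥ rm v (m 0 ^ k) = 0
    rw [hm0]
    exact hsum
  have hfeq : ∀ s, f s = -∑ k ∈ Finset.range (ℓ + 1), reL (β k * m s ^ k) := by
    intro s
    have e1 : (star v ⬝ᵥ fun i => η * R s i) =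
        -∑ k ∈ Finset.range (ℓ + 1), β k * m s ^ k := by
      have e2 : (fun i => η * R s i) =
          -∑ k ∈ Finset.range (ℓ + 1), rm (Bm η A k *ᵥ v) (m s ^ k) := by
        funext i
        rw [Pi.neg_apply, Finset.sum_apply]
        show η * (∑ k ∈ Finset.range (ℓ + 1), A k *ᵥ rm v (m s ^ k)) i = _
        rw [Finset.sum_apply, Finset.mul_sum, ← Finset.sum_neg_distrib]
        refine Finset.sum_congr rfl fun k _ => ?_
        rw [mulVec_rm, Bm_mulVec]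
        simp only [rm]
        noncomm_ring
      rw [e2, dotProduct_neg, dotProduct_sum]
      congr 1
      refine Finset.sum_congr rfl fun k _ => ?_
      rw [dot_rm]
    show reL (star v ⬝ᵥ fun i => η * R s i) = _
    rw [e1, map_neg, map_sum]
  have hf0 : f 0 = 0 := by
    show reL (star v ⬝ᵥ fun i => η * R 0 i) = 0
    rw [hR0]
    simp [dotProduct]
  have hfd : HasDerivAt f 0 0 := by
    have e1 : f = fun s => -∑ k ∈ Finset.range (ℓ + 1), reL (β k * m s ^ k) := funext hfeq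
    rw [e1]
    have e2 : HasDerivAt (fun s => ∑ k ∈ Finset.range (ℓ + 1), reL (β k * m s ^ k))
        (∑ k ∈ Finset.range (ℓ + 1), reL (β k * ((k : ℝ) • α ^ (k - 1)))) 0 := by
      refine HasDerivAt.fun_sum fun k _ => ?_
      exact reL_hasDeriv ((hasDeriv_pow α k).const_mul (β k))
    have e3 : ∑ k ∈ Finset.range (ℓ + 1), reL (β k * ((k : ℝ) • α ^ (k - 1))) = 0 := by
      rw [Finset.sum_range_succ', Nat.cast_zero, zero_smul, mul_zero, map_zero, add_zero, ← hder]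
      refine Finset.sum_congr rfl fun k _ => ?_
      rw [Nat.add_sub_cancel, mul_smul_comm, map_smul, smul_eq_mul, Nat.cast_succ]
    rw [e3] at e2
    have := e2.neg
    rw [neg_zero] at this
    exact this
  let ρ : ℝ → ℝ := fun s => f s / (s * N)
  let u : ℝ → Fin n → ℍ[ℝ] := fun s i => η * R s i - ρ s • (v i * m s)
  have hρ : Filter.Tendsto ρ (nhdsWithin 0 (Set.Ioi 0)) (nhds 0) := by
    have h := hasDerivAt_iff_tendsto_slope.mp hfd
    have h' : Filter.Tendsto (fun s => slope f 0 s / N) (nhdsWithin 0 (Set.Ioi 0)) (nhds (0 / N)) :=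
      (h.mono_left (nhdsWithin_mono _ (fun s (hs : 0 < s) => ne_of_gt hs))).div_const N
    rw [zero_div] at h'
    refine h'.congr fun s => ?_
    show slope f 0 s / N = f s / (s * N)
    rw [slope_def_field, hf0, sub_zero, sub_zero, div_div]
  have hmc : Continuous m := by
    show Continuous fun s : ℝ => α + s • (1 : ℍ[ℝ])
    fun_prop
  have hRc : ∀ i, Continuous fun s => R s i := by
    intro i
    have e1 : (fun s => R s i) = fun s => ∑ k ∈ Finset.range (ℓ + 1), (A k *ᵥ v) i * m s ^ k := by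
      funext s
      show (∑ k ∈ Finset.range (ℓ + 1), A k *ᵥ rm v (m s ^ k)) i = _
      rw [Finset.sum_apply]
      refine Finset.sum_congr rfl fun k _ => ?_
      rw [mulVec_rm]
      rfl
    rw [e1]
    fun_prop
  have hu : Filter.Tendsto u (nhdsWithin 0 (Set.Ioi 0)) (nhds 0) := by
    rw [tendsto_pi_nhds]
    intro i
    have e1 : Filter.Tendsto (fun s => η * R s i) (nhdsWithin 0 (Set.Ioi 0)) (nhds 0) := by
      have : Filter.Tendsto (fun s => η * R s i) (nhds 0) (nhds (η * R 0 i)) :=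
        (continuous_const.mul (hRc i)).tendsto 0
      rw [hR0, Pi.zero_apply, mul_zero] at this
      exact this.mono_left nhdsWithin_le_nhds
    have e2 : Filter.Tendsto (fun s => ρ s • (v i * m s)) (nhdsWithin 0 (Set.Ioi 0)) (nhds 0) := by
      have : Filter.Tendsto (fun s => v i * m s) (nhds 0) (nhds (v i * m 0)) :=
        (continuous_const.mul hmc).tendsto 0
      have := hρ.smul (this.mono_left nhdsWithin_le_nhds)
      rw [zero_smul] at this
      exact this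
    have := e1.sub e2
    rw [sub_zero] at this
    exact this
  -- the real part condition
  have hure : ∀ s, 0 < s → reL (star v ⬝ᵥ u s) = 0 := by
    intro s hs
    have e1 : u s = (fun i => η * R s i) - ρ s • rm v (m s) := rfl
    rw [e1, dotProduct_sub, dotProduct_smul, dot_rm, hNv, map_sub, map_smul]
    have e2 : reL ((N : ℍ[ℝ]) * m s) = N * s := by
      rw [Quaternion.coe_mul_eq_smul, map_smul, smul_eq_mul]
      congr 1
      show (α + s • (1 : ℍ[ℝ])).re = s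
      rw [Quaternion.re_add, Quaternion.re_smul, hα]
      simp
    rw [e2]
    show f s - (f s / (s * N)) • (N * s) = 0
    rw [smul_eq_mul]
    field_simp
    ring
  have hDc : ∀ i j, Continuous fun w : Fin n → ℍ[ℝ] => η * Dm v w N i j := by
    intro i j
    unfold Dm
    have : Continuous fun w : Fin n → ℍ[ℝ] => star v ⬝ᵥ w := by
      show Continuous fun w : Fin n → ℍ[ℝ] => ∑ i, star v i * w i
      fun_prop
    fun_prop
  have hDt : ∀ i j, Filter.Tendsto (fun s => η * Dm v (u s) N i j) (nhdsWithin 0 (Set.Ioi 0))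
      (nhds 0) := by
    intro i j
    have h := ((hDc i j).tendsto 0).comp hu
    have e1 : η * Dm v 0 N i j = 0 := by
      simp [Dm]
    rw [e1] at h
    exact h
  have ev1 : ∀ᶠ s in nhdsWithin (0 : ℝ) (Set.Ioi 0), ∀ i j, ‖η * Dm v (u s) N i j‖ < ε := by
    rw [Filter.eventually_all]
    intro i
    rw [Filter.eventually_all]
    intro j
    have h := (hDt i j).norm
    rw [norm_zero] at h
    exact h.eventually_lt_const hε
  have ev2 : ∀ᶠ s in nhdsWithin (0 : ℝ) (Set.Ioi 0), ‖ρ s • η‖ < ε := by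
    have h := (hρ.smul_const η).norm
    rw [zero_smul, norm_zero] at h
    exact h.eventually_lt_const hε
  obtain ⟨s, hs1, hs2, hs0⟩ := (ev1.and (ev2.and eventually_mem_nhdsWithin)).exists
  have hs0' : 0 < s := hs0
  refine ⟨s, hs0', pert η A (ρ s) (Dm v (u s) N), ?_, ?_, ?_⟩
  · exact pert_hypB h1 h2 h3 hB hℓ _ fun i j => Dm_star (hure s hs0') i j
  · intro k _ i j
    show ‖(A k i j + pD η (ρ s) (Dm v (u s) N) k i j) - A k i j‖ < ε
    rw [add_sub_cancel_left]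
    rcases (by omega : k = 0 ∨ k = 1 ∨ 2 ≤ k) with rfl | rfl | h
    · exact hs1 i j
    · rw [pD_one]
      split_ifs
      · exact hs2
      · rw [norm_zero]
        exact hε
    · rw [pD_two _ _ _ _ h, Matrix.zero_apply, norm_zero]
      exact hε
  · refine pert_sum h1 hℓ (ρ s) ?_
    rw [Dm_mulVec hNv hN0.ne' (hure s hs0')]

end Perturb

/-! ### The theorem -/

/-- If a system obeying (B) of order `ℓ ≥ 2` is stably bounded, then the root subspaces of `C` are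
`(G, φ)`-definite. -/
theorem result (φ : ℍ[ℝ] →ₗ[ℝ] ℍ[ℝ]) (hφ : IsNonstandardInvolution φ) (ℓ n : ℕ) (hℓ : 2 ≤ ℓ)
    (A : ℕ → Matrix (Fin n) (Fin n) ℍ[ℝ]) (hB : HypB φ ℓ A) (hs : StablyBounded φ ℓ A) (α : ℍ[ℝ])
    (hα : IsEigenvalue (comp ℓ A) α) : RootDefinite φ ℓ A α := by
  obtain ⟨η, h1, h2, h3⟩ := exists_eta hφ
  obtain ⟨ε, hε, hbd⟩ := hs
  -- the eigenvalue has real part `0`
  have hre : α.re = 0 := by
    by_contra hne
    obtain ⟨y, hy0, hy⟩ := hα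
    have hb := hbd A hB (fun k _ i j => by rw [sub_self, norm_zero]; exact hε)
    exact ex_unbounded hne (eigen_ne hy hy0) (hb _ (ex_solution (eigen_sum hB.1 hy)))
  intro x hx hxx
  by_contra hx0
  have H : FormData (comp ℓ A) (hf ℓ η A) :=
    ⟨hf_star h1 h2 h3 hB, hf_add_right η, hf_mul_right η, hf_skew h1 h2 h3 hB⟩
  have hη : η ≠ 0 := by
    rintro rfl
    simp at h1
  have hxx' : hf ℓ η A x x = 0 := by
    rw [hf_phi h3] at hxx
    exact (mul_eq_zero.mp hxx).resolve_left hη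
  obtain ⟨y, hy0, hy, hyy⟩ := exists_isotropic H hre x hx0 hxx' (ℓ * n) hx
  obtain ⟨s, hs0, A', hB', hA', hsum'⟩ := exists_pert h1 h2 h3 hB hℓ hre (eigen_ne hy hy0)
    (eigen_sum hB.1 hy) (eigen_form hre hy hyy) ε hε
  have hb := hbd A' hB' hA'
  refine ex_unbounded ?_ (eigen_ne hy hy0) (hb _ (ex_solution hsum'))
  rw [Quaternion.re_add, Quaternion.re_smul, hre]
  simp [hs0.ne']

end Pool.Agent.Results.MP_87a692_al.StableDefinite
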